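import Pool.Agent.H32.SAB.TargetsT

/-!
# Row PHES: quadratic polynomials and Hessian matrices
-/

set_option autoImplicit false

open Polynomial Matrix Pool.Agent.H32.SAB

namespace Pool.Agent.H16.SAB

theorem hes_apply {K : Type} [Field K] {n : ℕ} (f : MvPolynomial (Fin n) K) (i j : Fin n) :
    hes f i j = MvPolynomial.coeff (Finsupp.single i 1 + Finsupp.single j 1) f *
      ((Finsupp.single i 1 : Fin n →₀ ℕ) j + 1 : ℕ) := by
  rw [hes, Matrix.of_apply, MvPolynomial.coeff_pderiv, MvPolynomial.coeff_pderiv]
  simp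

theorem hes_symm {K : Type} [Field K] {n : ℕ} (f : MvPolynomial (Fin n) K) (i j : Fin n) :
    hes f i j = hes f j i := by
  rw [hes_apply, hes_apply, add_comm (Finsupp.single i 1)]
  congr 3
  rw [Finsupp.single_apply, Finsupp.single_apply]
  by_cases h : i = j
  · rw [if_pos h, if_pos h.symm]
  · rw [if_neg h, if_neg (Ne.symm h)]

theorem pf_HES : T_HES := by
  intro K _ n f hf
  refine ⟨?_, ?_⟩
  · ext i j
    exact hes_symm f j i
  · intro R _ φ x
    have hpd : ∀ i, MvPolynomial.pderiv i f =
        ∑ j, MvPolynomial.X j * MvPolynomial.C (hes f j i) := by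
      intro i
      have h1 : (MvPolynomial.pderiv i f).IsHomogeneous 1 := by
        have := hf.pderiv (i := i)
        exact this
      have h2 := h1.sum_X_mul_pderiv
      rw [one_smul] at h2
      rw [← h2]
      refine Finset.sum_congr rfl fun j _ => ?_
      have h3 : (MvPolynomial.pderiv j (MvPolynomial.pderiv i f)).IsHomogeneous 0 := by
        have := h1.pderiv (i := j)
        exact this
      have h4 := MvPolynomial.totalDegree_eq_zero_iff_eq_C.1
        ((MvPolynomial.totalDegree_zero_iff_isHomogeneous _).2 h3)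
      exact congrArg (fun q => MvPolynomial.X j * q) h4
    have hev : ∀ i, (((hes f).map φ) *ᵥ x) i =
        MvPolynomial.eval₂ φ x (MvPolynomial.pderiv i f) := by
      intro i
      rw [hpd i, MvPolynomial.eval₂_sum]
      show ∑ j, ((hes f).map φ) i j * x j = _
      refine Finset.sum_congr rfl fun j _ => ?_
      rw [MvPolynomial.eval₂_mul, MvPolynomial.eval₂_X, MvPolynomial.eval₂_C, Matrix.map_apply,
        hes_symm f i j, mul_comm]
    refine ⟨?_, hev⟩
    have h5 := congrArg (MvPolynomial.eval₂ φ x) hf.sum_X_mul_pderiv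
    rw [MvPolynomial.eval₂_sum] at h5
    have h6 : MvPolynomial.eval₂ φ x (2 • f) = 2 * MvPolynomial.eval₂ φ x f := by
      rw [two_smul, MvPolynomial.eval₂_add, two_mul]
    rw [h6] at h5
    rw [← h5]
    show ∑ i, x i * (((hes f).map φ) *ᵥ x) i = _
    refine Finset.sum_congr rfl fun i _ => ?_
    rw [hev i, MvPolynomial.eval₂_mul, MvPolynomial.eval₂_X]

end Pool.Agent.H16.SAB
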