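import Pool.Agent.H32.SAB.TargetsT

/-!
# Row PLAM: properties of `lam`
-/

set_option autoImplicit false

open Polynomial Matrix Pool.Agent.H32.SAB

namespace Pool.Agent.H16.SAB

theorem pf_LAM : T_LAM := by
  intro F _ P hP hdeg
  have h1 : ∀ f g : F[X], lam P (f + g) = lam P f + lam P g := by
    intro f g
    rw [lam, Polynomial.add_modByMonic, Polynomial.coeff_add]
    rfl
  have h2 : ∀ (c : F) (g : F[X]), lam P (C c * g) = c * lam P g := by
    intro c g
    rw [lam, Polynomial.C_mul', Polynomial.smul_modByMonic, Polynomial.coeff_smul, smul_eq_mul]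
    rfl
  have h3 : ∀ g : F[X], lam P (P * g) = 0 := by
    intro g
    rw [lam, (Polynomial.modByMonic_eq_zero_iff_dvd hP).2 (dvd_mul_right P g),
      Polynomial.coeff_zero]
  have h4 : ∀ g : F[X], g.natDegree ≤ 6 → lam P g = g.coeff 6 := by
    intro g hg
    rw [lam, (Polynomial.modByMonic_eq_self_iff hP).2]
    rw [Polynomial.degree_eq_natDegree hP.ne_zero, hdeg]
    refine lt_of_le_of_lt (Polynomial.degree_le_natDegree) ?_
    exact_mod_cast Nat.lt_succ_of_le hg
  have h50 : ∀ r : ℕ, r ≤ 7 → ∀ h : ℕ → F, ∃ D : F[X], D.natDegree ≤ 6 ∧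
      ∀ i, i < r → lam P (D * X ^ i) = h i := by
    intro r
    induction r with
    | zero =>
      intro _ h
      exact ⟨0, by simp, fun i hi => absurd hi (Nat.not_lt_zero i)⟩
    | succ r ih =>
      intro hr h
      obtain ⟨D, hD, hDi⟩ := ih (by omega) h
      obtain ⟨e, he⟩ : ∃ e, e = h r - lam P (D * X ^ r) := ⟨_, rfl⟩
      refine ⟨D + C e * X ^ (6 - r), ?_, ?_⟩
      · refine (Polynomial.natDegree_add_le _ _).trans (max_le hD ?_)
        refine (Polynomial.natDegree_C_mul_X_pow_le _ _).trans ?_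
        omega
      · intro i hi
        have h5 : (D + C e * X ^ (6 - r)) * X ^ i = D * X ^ i + C e * X ^ (6 - r + i) := by
          rw [pow_add]; ring
        rw [h5, h1, h2]
        have h6 : lam P (X ^ (6 - r + i)) = if i = r then 1 else 0 := by
          rw [h4 _ ((Polynomial.natDegree_X_pow_le _).trans (by omega)), Polynomial.coeff_X_pow]
          by_cases hir : i = r
          · rw [if_pos hir, if_pos (by omega)]
          · rw [if_neg hir, if_neg (by omega)]
        rw [h6]
        by_cases hir : i = r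
        · rw [if_pos hir, mul_one, he, hir]
          ring
        · rw [if_neg hir, mul_zero, add_zero]
          exact hDi i (by omega)
  have h5 : ∀ h : Fin 7 → F, ∃ D : F[X], D.natDegree ≤ 6 ∧
      ∀ i : Fin 7, lam P (D * X ^ (i : ℕ)) = h i := by
    intro h
    obtain ⟨D, hD, hDi⟩ := h50 7 le_rfl (fun i => if hi : i < 7 then h ⟨i, hi⟩ else 0)
    refine ⟨D, hD, fun i => ?_⟩
    rw [hDi i i.2, dif_pos i.2]
  refine ⟨h1, h2, h3, h4, h5, ?_⟩
  intro l hl
  obtain ⟨D, hD, hDi⟩ := h5 (fun i => l (X ^ (i : ℕ)))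
  refine ⟨D, ?_⟩
  let M : F[X] →ₗ[F] F :=
    { toFun := fun g => lam P (D * g)
      map_add' := by
        intro f g
        rw [mul_add, h1]
      map_smul' := by
        intro c g
        rw [RingHom.id_apply, smul_eq_mul, ← h2, ← Polynomial.C_mul']
        congr 1
        ring }
  have hM : ∀ g, M g = lam P (D * g) := fun _ => rfl
  have hlow : ∀ g : F[X], g.natDegree < 7 → l g = M g := by
    intro g hg
    rw [Polynomial.as_sum_range' g 7 hg, map_sum, map_sum]
    refine Finset.sum_congr rfl fun i hi => ?_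
    have hi7 : i < 7 := Finset.mem_range.1 hi
    have h6 : (monomial i) (g.coeff i) = (g.coeff i) • (X ^ i : F[X]) := by
      rw [← Polynomial.C_mul_X_pow_eq_monomial, Polynomial.C_mul']
    rw [h6, map_smul, map_smul, hM]
    congr 1
    exact (hDi ⟨i, hi7⟩).symm
  intro g
  have h7 : g %ₘ P + P * (g /ₘ P) = g := Polynomial.modByMonic_add_div g P
  have h8 : l g = l (g %ₘ P) := by
    conv_lhs => rw [← h7]
    rw [map_add, hl, add_zero]
  have h9 : lam P (D * g) = lam P (D * (g %ₘ P)) := by
    conv_lhs => rw [← h7]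
    have h10 : D * (g %ₘ P + P * (g /ₘ P)) = D * (g %ₘ P) + P * (D * (g /ₘ P)) := by ring
    rw [h10, h1, h3, add_zero]
  rw [h8, h9, ← hM]
  apply hlow
  have h11 : (g %ₘ P).natDegree < P.natDegree := by
    apply Polynomial.natDegree_modByMonic_lt g hP
    intro h12
    rw [h12] at hdeg
    simp at hdeg
  rwa [hdeg] at h11

end Pool.Agent.H16.SAB
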